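import Pool.Agent.H34.FS.Targets

/-!
# Rows GGE and GGU of hfs_modules: the forms of the family
-/

set_option autoImplicit false

open Finset Pool.Agent.H32.RQ Pool.Agent.H34.FQ

namespace Pool.Agent.H1.HFS

open Pool.Agent.H34.FS

/-- the monomial `z_0 z_j` -/
private def m0 {r : ℕ} (j : Fin (r + 1)) : Mon (r + 1) := ⟨(0, j), Fin.zero_le j⟩

/-- the monomial in the last `r` variables -/
private def ms {r : ℕ} (p : Mon r) : Mon (r + 1) :=
  ⟨(p.1.1.succ, p.1.2.succ), Fin.succ_le_succ_iff.2 p.2⟩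

private theorem ms_pm {r : ℕ} (p : Mon (r + 1)) (h : p.1.1 ≠ 0) : ms (pm p h) = p := by
  refine Subtype.ext (Prod.ext ?_ ?_)
  · exact Fin.succ_pred _ h
  · exact Fin.succ_pred _ (ne0 h)

private theorem m0_eq {r : ℕ} (p : Mon (r + 1)) (h : p.1.1 = 0) : m0 p.1.2 = p := by
  refine Subtype.ext (Prod.ext ?_ ?_)
  · exact h.symm
  · rfl

private theorem gf_m0 {R : Type} [CommRing R] {r : ℕ} (f : Mon r → R) (l : Fin (r + 1) → R)
    (j : Fin (r + 1)) : gf f l (m0 j) = l j := by
  unfold gf
  have h : (m0 j).1.1 = 0 := rfl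
  rw [dif_pos h]
  rfl

private theorem gf_ms {R : Type} [CommRing R] {r : ℕ} (f : Mon r → R) (l : Fin (r + 1) → R)
    (p : Mon r) : gf f l (ms p) = f p := by
  unfold gf
  have h : (ms p).1.1 ≠ 0 := Fin.succ_ne_zero _
  rw [dif_neg h]
  congr 1

private def sm {r : ℕ} : Fin (r + 1) ⊕ Mon r → Mon (r + 1) := Sum.elim m0 ms

private theorem sm_bij {r : ℕ} : Function.Bijective (sm (r := r)) := by
  constructor
  · rintro (a | a) (b | b) h
    · have h1 : a = b := congrArg (fun q : Mon (r + 1) => q.1.2) h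
      rw [h1]
    · have h1 : (0 : Fin (r + 1)) = b.1.1.succ := congrArg (fun q : Mon (r + 1) => q.1.1) h
      exact absurd h1.symm (Fin.succ_ne_zero _)
    · have h1 : a.1.1.succ = (0 : Fin (r + 1)) := congrArg (fun q : Mon (r + 1) => q.1.1) h
      exact absurd h1 (Fin.succ_ne_zero _)
    · have h1 : a.1.1.succ = b.1.1.succ := congrArg (fun q : Mon (r + 1) => q.1.1) h
      have h2 : a.1.2.succ = b.1.2.succ := congrArg (fun q : Mon (r + 1) => q.1.2) h
      have h3 : a = b := Subtype.ext (Prod.ext (Fin.succ_injective _ h1)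
        (Fin.succ_injective _ h2))
      rw [h3]
  · intro p
    by_cases h : p.1.1 = 0
    · exact ⟨Sum.inl p.1.2, m0_eq p h⟩
    · exact ⟨Sum.inr (pm p h), ms_pm p h⟩

private theorem sum_mon {R : Type} [CommRing R] {r : ℕ} (g : Mon (r + 1) → R) :
    ∑ p, g p = ∑ j, g (m0 j) + ∑ p, g (ms p) := by
  rw [← sm_bij.sum_comp g, Fintype.sum_sum_type]
  rfl

theorem pf_GGE : T_GGE := by
  intro R _ r f l c x
  refine ⟨?_, ?_, ?_, ?_⟩
  · unfold qf
    rw [sum_mon, Finset.mul_sum, add_comm]
    congr 1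
    · refine Finset.sum_congr rfl fun j _ => ?_
      rw [gf_m0]
      change l j * (c * cv c x j) = _
      ring
  · intro k
    unfold dq
    rw [sum_mon, add_comm]
    congr 1
    · refine Finset.sum_congr rfl fun p _ => ?_
      rw [gf_ms]
      change f p * ((if p.1.1.succ = k.succ then x p.1.2 else 0) +
        (if p.1.2.succ = k.succ then x p.1.1 else 0)) = _
      simp only [Fin.succ_inj]
    · have h1 : ∀ j : Fin (r + 1), gf f l (m0 j) *
          ((if (m0 j).1.1 = k.succ then cv c x (m0 j).1.2 else 0) +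
            (if (m0 j).1.2 = k.succ then cv c x (m0 j).1.1 else 0)) =
          if j = k.succ then l j * c else 0 := by
        intro j
        rw [gf_m0]
        have h2 : (m0 j).1.1 ≠ k.succ := (Fin.succ_ne_zero k).symm
        rw [if_neg h2, zero_add]
        change l j * (if j = k.succ then c else 0) = _
        rw [mul_ite, mul_zero]
      rw [Finset.sum_congr rfl fun j _ => h1 j, Finset.sum_ite_eq', if_pos (Finset.mem_univ _),
        mul_comm]
  · unfold dq
    rw [sum_mon]
    have h3 : ∑ p : Mon r, gf f l (ms p) *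
        ((if (ms p).1.1 = 0 then cv c x (ms p).1.2 else 0) +
          (if (ms p).1.2 = 0 then cv c x (ms p).1.1 else 0)) = 0 := by
      refine Finset.sum_eq_zero fun p _ => ?_
      have h4 : (ms p).1.1 ≠ 0 := Fin.succ_ne_zero _
      have h5 : (ms p).1.2 ≠ 0 := Fin.succ_ne_zero _
      rw [if_neg h4, if_neg h5, add_zero, mul_zero]
    rw [h3, add_zero]
    have h1 : ∀ j : Fin (r + 1), gf f l (m0 j) *
        ((if (m0 j).1.1 = 0 then cv c x (m0 j).1.2 else 0) +
          (if (m0 j).1.2 = 0 then cv c x (m0 j).1.1 else 0)) =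
        l j * cv c x j + if j = 0 then l j * c else 0 := by
      intro j
      rw [gf_m0]
      have h2 : (m0 j).1.1 = 0 := rfl
      rw [if_pos h2]
      change l j * (cv c x j + (if j = 0 then c else 0)) = _
      rw [mul_add, mul_ite, mul_zero]
    rw [Finset.sum_congr rfl fun j _ => h1 j, Finset.sum_add_distrib, Finset.sum_ite_eq',
      if_pos (Finset.mem_univ _), mul_comm c]
  · intro R' _ φ p
    by_cases h : p.1.1 = 0
    · rw [← m0_eq p h, gf_m0, gf_m0]
    · rw [← ms_pm p h, gf_ms, gf_ms]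

/-- integral quadratic forms are determined by their values -/
private theorem qf_inj {r : ℕ} {f g : Mon r → ℤ} (h : ∀ x : Fin r → ℤ, qf f x = qf g x) :
    f = g := by
  have hpol : ∀ (f : Mon r → ℤ) (x y : Fin r → ℤ), qf f (x + y) - qf f x - qf f y =
      ∑ p, f p * (x p.1.1 * y p.1.2 + y p.1.1 * x p.1.2) := by
    intro f x y
    unfold qf
    rw [← Finset.sum_sub_distrib, ← Finset.sum_sub_distrib]
    refine Finset.sum_congr rfl fun p _ => ?_
    rw [Pi.add_apply, Pi.add_apply]
    ring
  have hone : ∀ (f : Mon r → ℤ) (p : Mon r),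
      ∑ q, f q * ((Pi.single p.1.1 1 : Fin r → ℤ) q.1.1 * (Pi.single p.1.2 1 : Fin r → ℤ) q.1.2 +
        (Pi.single p.1.2 1 : Fin r → ℤ) q.1.1 * (Pi.single p.1.1 1 : Fin r → ℤ) q.1.2) =
      f p * (1 + (if p.1.1 = p.1.2 then 1 else 0)) := by
    intro f p
    rw [Finset.sum_eq_single p]
    · congr 1
      rw [Pi.single_eq_same, Pi.single_eq_same, mul_one]
      congr 1
      rw [Pi.single_apply, Pi.single_apply]
      by_cases h1 : p.1.1 = p.1.2
      · rw [if_pos h1, if_pos h1.symm, mul_one]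
      · rw [if_neg h1, zero_mul]
    · intro q _ hq
      have h1 : (Pi.single p.1.1 1 : Fin r → ℤ) q.1.1 * (Pi.single p.1.2 1 : Fin r → ℤ) q.1.2 =
          0 := by
        rw [Pi.single_apply, Pi.single_apply]
        by_cases h2 : q.1.1 = p.1.1
        · by_cases h3 : q.1.2 = p.1.2
          · exact absurd (Subtype.ext (Prod.ext h2 h3)) hq
          · rw [if_neg h3, mul_zero]
        · rw [if_neg h2, zero_mul]
      have h4 : (Pi.single p.1.2 1 : Fin r → ℤ) q.1.1 * (Pi.single p.1.1 1 : Fin r → ℤ) q.1.2 =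
          0 := by
        rw [Pi.single_apply, Pi.single_apply]
        by_cases h2 : q.1.1 = p.1.2
        · by_cases h3 : q.1.2 = p.1.1
          · have h5 := p.2
            have h6 := q.2
            rw [h2, h3] at h6
            have h7 : p.1.1 = p.1.2 := le_antisymm h5 h6
            exact absurd (Subtype.ext (Prod.ext (h2.trans h7.symm) (h3.trans h7))) hq
          · rw [if_neg h3, mul_zero]
        · rw [if_neg h2, zero_mul]
      rw [h1, h4, add_zero, mul_zero]
    · intro h
      exact absurd (Finset.mem_univ _) h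
  funext p
  have e1 := hpol f (Pi.single p.1.1 1) (Pi.single p.1.2 1)
  have e2 := hpol g (Pi.single p.1.1 1) (Pi.single p.1.2 1)
  rw [hone] at e1 e2
  rw [h, h, h, e2] at e1
  have h0 : (0 : ℤ) ≤ if p.1.1 = p.1.2 then 1 else 0 := by
    split_ifs <;> norm_num
  have h1 : (1 : ℤ) + (if p.1.1 = p.1.2 then 1 else 0) ≠ 0 := by
    intro h2
    linarith
  exact (mul_right_cancel₀ h1 e1).symm

theorem pf_GGU (hGGE : T_GGE) : T_GGU := by
  intro r F G hG
  have hsplit : ∀ i, G i = gf (fun p => G i (ms p)) (fun j => G i (m0 j)) := by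
    intro i
    funext p
    by_cases h : p.1.1 = 0
    · rw [← m0_eq p h, gf_m0]
    · rw [← ms_pm p h, gf_ms]
  have hF : ∀ i, (fun p => G i (ms p)) = F i := by
    intro i
    refine qf_inj fun x => ?_
    have h1 := hG i x
    rw [hsplit i, (hGGE ℤ r _ _ 0 x).1, zero_mul, add_zero] at h1
    exact h1
  refine ⟨fun i j => G i (m0 j), ?_, ?_⟩
  · funext i
    change G i = gf (F i) (fun j => G i (m0 j))
    rw [← hF i]
    exact hsplit i
  · intro L hL
    funext i j
    have h1 : G i (m0 j) = gf (F i) (L i) (m0 j) := congrFun (congrFun hL i) (m0 j)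
    rw [gf_m0] at h1
    exact h1.symm

end Pool.Agent.H1.HFS
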