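import Pool.Agent.H34.FS.Targets

/-!
# Row TRL of hfs_modules: from the random model to the box
-/

set_option autoImplicit false

open Finset Pool.Agent.H32.RQ Pool.Agent.H34.FQ

namespace Pool.Agent.H1.HFS.TRL

open Pool.Agent.H34.FS

private theorem vm_cast {n : ℕ} (Q : ℕ) (z : Fin n → ℤ) (t : ℤ) (l : Fin n → ℤ) :
    vm Q z t (fun j => (l j : ZMod Q)) = ((t + ∑ j, l j * z j : ℤ) : ZMod Q) := by
  unfold vm
  push_cast
  rfl

private theorem cL_inj {n A Q : ℕ} (h : 2 * A < Q) (L L' : Fin 2 → Fin n → ℤ)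
    (hL : ∀ i j, |L i j| ≤ A) (hL' : ∀ i j, |L' i j| ≤ A)
    (he : cL (ZMod Q) L = cL (ZMod Q) L') : L = L' := by
  funext i p
  have h1 : ((L i p : ℤ) : ZMod Q) = ((L' i p : ℤ) : ZMod Q) := congrFun (congrFun he i) p
  have h2 : ((L i p - L' i p : ℤ) : ZMod Q) = 0 := by
    push_cast
    rw [h1, sub_self]
  have h3 : (Q : ℤ) ∣ L i p - L' i p := (ZMod.intCast_zmod_eq_zero_iff_dvd _ Q).1 h2
  have h4 : |L i p - L' i p| < (Q : ℤ) := by
    have a1 := hL i p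
    have a2 := hL' i p
    have a3 := abs_sub (L i p) (L' i p)
    have a4 : 2 * (A : ℤ) < Q := by exact_mod_cast h
    linarith
  have h5 := Int.eq_zero_of_abs_lt_dvd h3 h4
  linarith

private theorem wL_ge (hFJB : T_FJB) {n A J Q : ℕ} [NeZero Q] (hJ : 1 ≤ J) (hQ : Q = 2 * A * J)
    (L : Fin 2 → Fin n → ℤ) (hL : ∀ i j, |L i j| ≤ A) :
    ((4 : ℝ) / 10) ^ (2 * n) ≤ wL Q J (cL (ZMod Q) L) := by
  have h1 : ∀ (i : Fin 2) (p : Fin n), (4 : ℝ) / 10 ≤ fj Q J (cL (ZMod Q) L i p) := by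
    intro i p
    apply (hFJB Q J hJ).2.2
    have a1 := hL i p
    have a2 : (0 : ℤ) ≤ 2 * (J : ℤ) := by positivity
    calc 2 * (J : ℤ) * |L i p| ≤ 2 * (J : ℤ) * A := mul_le_mul_of_nonneg_left a1 a2
      _ = Q := by rw [hQ]; push_cast; ring
  unfold wL
  have h2 : ∏ _i : Fin 2, ∏ _p : Fin n, ((4 : ℝ) / 10) = ((4 : ℝ) / 10) ^ (2 * n) := by
    rw [Finset.prod_const, Finset.prod_const, Finset.card_univ, Finset.card_univ, ← pow_mul,
      Fintype.card_fin, Fintype.card_fin, mul_comm]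
  rw [← h2]
  apply Finset.prod_le_prod
  · intro i _
    apply Finset.prod_nonneg
    intro p _
    norm_num
  · intro i _
    apply Finset.prod_le_prod
    · intro p _
      norm_num
    · intro p _
      exact h1 i p

private theorem lam_nonneg (hFJB : T_FJB) {Q W T : ℕ} [NeZero Q] (hQT : 1 ≤ Q / T)
    (v : ZMod Q) : 0 ≤ lam Q W T v := by
  unfold lam
  split_ifs
  · have := ((hFJB Q (Q / T) hQT).1 v).1
    positivity
  · exact le_rfl

private theorem lam_ge (hFJB : T_FJB) {Q W T : ℕ} [NeZero Q] (hQT : 1 ≤ Q / T) (hW : W ∣ Q)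
    (hT : T ∣ Q) (z : ℤ) (h1 : (W : ℤ) ∣ z) (h2 : 2 * |z| ≤ T) :
    (W : ℝ) / T * (4 / 10) ≤ lam Q W T (z : ZMod Q) := by
  have h3 : W ∣ (z : ZMod Q).val := by
    have e1 : (((z : ZMod Q).val : ℕ) : ℤ) = z % Q := ZMod.val_intCast z
    have e2 : (W : ℤ) ∣ (((z : ZMod Q).val : ℕ) : ℤ) := by
      rw [e1]
      exact (EuclideanDomain.dvd_mod_iff (by exact_mod_cast hW)).2 h1
    exact_mod_cast e2
  unfold lam
  rw [if_pos h3]
  apply mul_le_mul_of_nonneg_left _ (by positivity)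
  apply (hFJB Q (Q / T) hQT).2.2
  have e3 : ((Q / T : ℕ) : ℤ) * (T : ℤ) = Q := by
    exact_mod_cast Nat.div_mul_cancel hT
  calc 2 * ((Q / T : ℕ) : ℤ) * |z| = ((Q / T : ℕ) : ℤ) * (2 * |z|) := by ring
    _ ≤ ((Q / T : ℕ) : ℤ) * T := mul_le_mul_of_nonneg_left h2 (Nat.cast_nonneg _)
    _ = Q := e3

theorem pf_TRL (hFJB : T_FJB) : T_TRL := by
  classical
  intro r n A J Q W T _ S z t E M₀ hA hJ hQ hW hWQ hTQ hWT h2A hE hsz hM0 hmain
  have hQpos : 0 < Q := Nat.pos_of_ne_zero (NeZero.ne Q)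
  have hTpos : 0 < T := Nat.pos_of_dvd_of_pos hTQ hQpos
  have hQT : 1 ≤ Q / T := Nat.div_pos (Nat.le_of_dvd hQpos hTQ) hTpos
  have hnn : ∀ F : Fin 2 → Fin n → ZMod Q,
      0 ≤ wL Q J F * (nL Q S z t F - lL Q W T S z t F) ^ 2 := by
    intro F
    apply mul_nonneg _ (sq_nonneg _)
    unfold wL
    apply Finset.prod_nonneg
    intro i _
    apply Finset.prod_nonneg
    intro p _
    exact ((hFJB Q J hJ).1 _).1
  have hterm : ∀ L ∈ E, ((4 : ℝ) / 10) ^ (2 * n) * (((W : ℝ) / T) ^ 2 * (4 / 10) ^ 2 * M₀) ^ 2 ≤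
      wL Q J (cL (ZMod Q) L) *
        (nL Q S z t (cL (ZMod Q) L) - lL Q W T S z t (cL (ZMod Q) L)) ^ 2 := by
    intro L hL
    obtain ⟨m1, m2⟩ := hmain L hL
    have hww := wL_ge hFJB hJ hQ L (hE L hL)
    have hcast : ∀ (x : Fin r → ℤ) (i : Fin 2), vm Q (z x) (t i x) (cL (ZMod Q) L i) =
        ((t i x + ∑ j, L i j * z x j : ℤ) : ZMod Q) := fun x i => vm_cast Q (z x) (t i x) (L i)
    have hn0 : nL Q S z t (cL (ZMod Q) L) = 0 := by
      unfold nL
      apply Finset.sum_eq_zero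
      intro x hx
      rw [if_neg]
      intro hcon
      obtain ⟨i, hi⟩ := m1 x hx
      apply hi
      have e1 := hcon i
      rw [hcast] at e1
      have e2 : (Q : ℤ) ∣ t i x + ∑ j, L i j * z x j :=
        (ZMod.intCast_zmod_eq_zero_iff_dvd _ Q).1 e1
      exact Int.eq_zero_of_abs_lt_dvd e2 (hsz L hL x hx i)
    have hl : ((W : ℝ) / T) ^ 2 * (4 / 10) ^ 2 * M₀ ≤ lL Q W T S z t (cL (ZMod Q) L) := by
      unfold lL
      have hnn2 : ∀ x ∈ S, 0 ≤ ∏ i, lam Q W T (vm Q (z x) (t i x) (cL (ZMod Q) L i)) :=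
        fun x _ => Finset.prod_nonneg fun i _ => lam_nonneg hFJB hQT _
      calc ((W : ℝ) / T) ^ 2 * (4 / 10) ^ 2 * M₀ ≤ ((W : ℝ) / T) ^ 2 * (4 / 10) ^ 2 *
            ((S.filter fun x => ∀ i, (W : ℤ) ∣ t i x + ∑ j, L i j * z x j ∧
              2 * |t i x + ∑ j, L i j * z x j| ≤ T).card : ℝ) :=
            mul_le_mul_of_nonneg_left m2 (by positivity)
        _ = ∑ x ∈ S.filter fun x => ∀ i, (W : ℤ) ∣ t i x + ∑ j, L i j * z x j ∧
              2 * |t i x + ∑ j, L i j * z x j| ≤ T,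
            ∏ _i : Fin 2, ((W : ℝ) / T * (4 / 10)) := by
            rw [Finset.sum_const, nsmul_eq_mul, Finset.prod_const, Finset.card_univ,
              Fintype.card_fin]
            ring
        _ ≤ ∑ x ∈ S.filter fun x => ∀ i, (W : ℤ) ∣ t i x + ∑ j, L i j * z x j ∧
              2 * |t i x + ∑ j, L i j * z x j| ≤ T,
            ∏ i, lam Q W T (vm Q (z x) (t i x) (cL (ZMod Q) L i)) := by
            apply Finset.sum_le_sum
            intro x hx
            rw [Finset.mem_filter] at hx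
            apply Finset.prod_le_prod
            · intro i _
              positivity
            · intro i _
              rw [hcast]
              exact lam_ge hFJB hQT hWQ hTQ _ (hx.2 i).1 (hx.2 i).2
        _ ≤ _ := Finset.sum_le_sum_of_subset_of_nonneg (Finset.filter_subset _ _)
            (fun x hx _ => hnn2 x hx)
    have hl0 : 0 ≤ ((W : ℝ) / T) ^ 2 * (4 / 10) ^ 2 * M₀ := by positivity
    rw [hn0, zero_sub, neg_sq]
    apply mul_le_mul hww (pow_le_pow_left₀ hl0 hl 2) (sq_nonneg _)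
    exact le_trans (by positivity) hww
  calc (E.card : ℝ) * ((4 / 10) ^ (2 * n) * (((W : ℝ) / T) ^ 2 * (4 / 10) ^ 2 * M₀) ^ 2) =
      ∑ _c ∈ E, ((4 : ℝ) / 10) ^ (2 * n) * (((W : ℝ) / T) ^ 2 * (4 / 10) ^ 2 * M₀) ^ 2 := by
        rw [Finset.sum_const, nsmul_eq_mul]
    _ ≤ ∑ L ∈ E, wL Q J (cL (ZMod Q) L) *
        (nL Q S z t (cL (ZMod Q) L) - lL Q W T S z t (cL (ZMod Q) L)) ^ 2 :=
          Finset.sum_le_sum hterm
    _ = ∑ F ∈ E.image (cL (ZMod Q)), wL Q J F * (nL Q S z t F - lL Q W T S z t F) ^ 2 := by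
        rw [Finset.sum_image]
        intro c hc c' hc' he
        exact cL_inj h2A c c' (hE c hc) (hE c' hc') he
    _ ≤ _ := Finset.sum_le_sum_of_subset_of_nonneg (Finset.subset_univ _) (fun F _ _ => hnn F)

end Pool.Agent.H1.HFS.TRL
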